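import Pool.Agent.H.MP_6540cb_lc.Defs
import Pool.Agent.H.MP_141b7f_lc.Main

set_option autoImplicit false

namespace Pool.Agent.H.MP_6540cb_lc
open Pool.Agent.H.MP_141b7f_lc MeasureTheory

variable {d : ℕ}

lemma sh_add {α : Type} (g h : Fin d → ℤ) (x : (Fin d → ℤ) → α) : sh (g + h) x = sh g (sh h x) := by
  funext t
  simp only [sh, add_assoc]

lemma sh_zero {α : Type} (x : (Fin d → ℤ) → α) : sh 0 x = x := by
  funext t
  simp only [sh, add_zero]

lemma sh_free (g : Fin d → ℤ) (x : (Fin d → ℤ) → Bool) (hx : ∀ g, g ≠ 0 → sh g x ≠ x) :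
    ∀ h, h ≠ 0 → sh h (sh g x) ≠ sh g x := by
  intro h hh e
  apply hx h hh
  have := congrArg (sh (-g)) e
  rwa [← sh_add, ← sh_add, ← sh_add, neg_add_cancel, sh_zero,
    show -g + h + g = h by abel] at this

def act (g : Fin d → ℤ) (x : Free d) : Free d := ⟨sh g x.1, sh_free g x.1 x.2⟩

lemma sh_cont (g : Fin d → ℤ) : Continuous (sh g : ((Fin d → ℤ) → Bool) → _) :=
  continuous_pi fun t => continuous_apply (t + g)

lemma act_cont (g : Fin d → ℤ) : Continuous (act g) :=
  ((sh_cont g).comp continuous_subtype_val).subtype_mk _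

lemma free_gd : IsGδ {x : (Fin d → ℤ) → Bool | ∀ g, g ≠ 0 → sh g x ≠ x} := by
  simp only [Set.setOf_forall]
  exact IsGδ.iInter fun g => IsGδ.iInter fun _ =>
    (isOpen_ne_fun (sh_cont g) continuous_id).isGδ

instance : BaireSpace (Free d) := free_gd.baireSpace_of_t2Space_locallyCompactSpace

instance : SecondCountableTopology (Free d) :=
  TopologicalSpace.Subtype.secondCountableTopology
    {x : (Fin d → ℤ) → Bool | ∀ g, g ≠ 0 → sh g x ≠ x}

lemma baire_pi {X : Type} [TopologicalSpace X] {k : ℕ} (T : X → (Fin d → ℤ) → Fin k)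
    (h : ∀ g s, BaireMeasurableSet ((fun x => T x g) ⁻¹' s)) (U : Set ((Fin d → ℤ) → Fin k))
    (hU : MeasurableSet U) : BaireMeasurableSet (T ⁻¹' U) := by
  have : @Measurable X _ (eventuallyMeasurableSpace (borel X) (residual X)) _ T :=
    @measurable_pi_lambda X _ _ (eventuallyMeasurableSpace (borel X) (residual X)) _ T
      fun g s _ => h g s
  exact this hU

theorem part2 {i0 i1 : Fin d} (hi : i0 ≠ i1) (W : Finset (Fin d → ℤ))
    (hw : ∀ g : Fin d → ℤ, (∀ i, |g i| ≤ 4) → g ∈ W) :
    ∃ T : Free d → (Fin d → ℤ) → Fin kk, EqTo (SFT W (Pat i0 i1 fun g => g ∈ W)ᶜ) T ∧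
      ∀ U, IsOpen U → BaireMeasurableSet (T ⁻¹' U) := by
  have hadd : ∀ (g h : Fin d → ℤ) x, act (g + h) x = act g (act h x) := fun g h x =>
    Subtype.ext (sh_add _ _ _)
  obtain ⟨c, h1, h2⟩ := baire_pat' hi hw act (fun x => Subtype.ext (sh_zero _)) hadd
    (fun g => (act_cont g).measurable) (fun g x h => by
      by_contra hg
      exact x.2 g hg (congrArg Subtype.val h))
  refine ⟨fun x g => c (act g x), ⟨fun x g h => h ?_, fun g x y h => ?_⟩, fun U hU => ?_⟩
  · simp only [sh, hadd]
    exact h2 (act g x)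
  · have : y = act g x := Subtype.ext h
    funext t
    simp only [sh, hadd, this]
  · refine baire_pi _ (fun g s => ?_) U hU.measurableSet
    let e : Free d ≃ₜ Free d :=
      { toFun := act g
        invFun := act (-g)
        left_inv := fun x => by rw [← hadd, neg_add_cancel]; exact Subtype.ext (sh_zero _)
        right_inv := fun x => by rw [← hadd, add_neg_cancel]; exact Subtype.ext (sh_zero _)
        continuous_toFun := act_cont g
        continuous_invFun := act_cont (-g) }
    exact (h1 s).preimage e.continuous e.isOpenMap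

open Classical in
noncomputable def code (x : UnitAddCircle) : (Fin d → ℤ) → Bool :=
  fun g => decide (rot g x ∈ Metric.closedBall (0 : UnitAddCircle) (1 / 4))

lemma code_rot (g : Fin d → ℤ) (x : UnitAddCircle) : code (rot g x) = sh g (code x) := by
  funext h
  unfold code sh
  dsimp only
  rw [rot_add]

lemma code_meas : Measurable (code : UnitAddCircle → (Fin d → ℤ) → Bool) := by
  classical
  refine measurable_pi_lambda _ fun g => ?_
  exact (Measurable.of_discrete (f := fun p : Prop => decide p)).comp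
    (measurableSet_setOfPred.1 ((rot_cont g).measurable Metric.isClosed_closedBall.measurableSet))

lemma code_free : ∀ᵐ x ∂(volume : Measure UnitAddCircle), ∀ g : Fin d → ℤ, g ≠ 0 →
    sh g (code x) ≠ code x := by
  haveI := vol_prob
  refine ae_all_iff.2 fun g => ?_
  by_cases hg : g = 0
  · exact Filter.Eventually.of_forall fun x h => absurd hg h
  have herg := rot_erg g hg
  let B : Set UnitAddCircle := {x | sh g (code x) = code x}
  have hB : MeasurableSet B :=
    measurableSet_eq_fun ((sh_cont g).measurable.comp code_meas) code_meas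
  have hinv : rot g ⁻¹' B = B := by
    ext x
    simp only [B, Set.mem_preimage, Set.mem_setOf_eq, code_rot]
    constructor
    · intro h
      have := congrArg (sh (-g)) h
      rwa [← sh_add, ← sh_add, ← sh_add, neg_add_cancel, sh_zero, zero_add] at this
    · intro h
      rw [h, h]
  rcases herg.ae_mem_or_ae_notMem hB hinv with h | h
  · exfalso
    have hI : rot g ⁻¹' Metric.closedBall (0 : UnitAddCircle) (1 / 4) =ᵐ[volume]
        Metric.closedBall (0 : UnitAddCircle) (1 / 4) := by
      filter_upwards [h] with x hx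
      have := congrFun hx 0
      simp only [code, sh, zero_add, rot_zero, decide_eq_decide] at this
      exact propext this
    have hv := AddCircle.volume_closedBall (T := 1) (x := 0) (1 / 4)
    rw [show min (1 : ℝ) (2 * (1 / 4)) = 1 / 2 by norm_num] at hv
    rcases herg.quasiErgodic.ae_empty_or_univ₀
      Metric.isClosed_closedBall.measurableSet.nullMeasurableSet hI with h1 | h1
    · rw [measure_congr h1, measure_empty] at hv
      exact absurd hv.symm (by simp)
    · rw [measure_congr h1, measure_univ] at hv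
      have := congrArg ENNReal.toReal hv
      norm_num at this
  · exact h.mono fun x hx _ => hx

lemma ex_kappa : ∃ κ : UnitAddCircle → Free d, Measurable κ ∧
    ∀ᵐ x ∂(volume : Measure UnitAddCircle), ∀ g, (κ (rot g x)).1 = sh g (κ x).1 := by
  classical
  haveI := vol_prob
  obtain ⟨x0, hx0⟩ := (code_free (d := d)).exists
  let κ : UnitAddCircle → Free d := fun x =>
    if h : ∀ g : Fin d → ℤ, g ≠ 0 → sh g (code x) ≠ code x then ⟨code x, h⟩ else ⟨code x0, hx0⟩
  have hm : MeasurableSet {x : UnitAddCircle | ∀ g : Fin d → ℤ, g ≠ 0 → sh g (code x) ≠ code x} :=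
    code_meas (free_gd (d := d)).measurableSet
  refine ⟨κ, ?_, ?_⟩
  · have : (fun x => (κ x).1) = fun x =>
        if ∀ g : Fin d → ℤ, g ≠ 0 → sh g (code x) ≠ code x then code x else code x0 := by
      funext x
      simp only [κ]
      split_ifs <;> rfl
    have h2 : Measurable fun x => (κ x).1 := by
      rw [this]
      exact Measurable.ite hm code_meas measurable_const
    exact h2.subtype_mk
  · filter_upwards [code_free (d := d)] with x hf g
    have hf' : ∀ h : Fin d → ℤ, h ≠ 0 → sh h (code (rot g x)) ≠ code (rot g x) := by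
      rw [code_rot]; exact sh_free g _ hf
    simp only [κ]
    rw [dif_pos hf, dif_pos hf']
    exact code_rot g x

theorem part3 {k : ℕ} (W : Finset (Fin d → ℤ)) (P : Set ({w // w ∈ W} → Fin k))
    (hP : ∀ c : UnitAddCircle → Fin k, Measurable c →
      (∀ᵐ x ∂volume, (fun g : {w // w ∈ W} => c (rot g.1 x)) ∈ P) → False) :
    ∃ μ : Measure (Free d), IsProbabilityMeasure μ ∧
      ¬ ∃ T : Free d → (Fin d → ℤ) → Fin k, EqTo (SFT W Pᶜ) T ∧ NullMeasurable T μ := by
  haveI := vol_prob
  obtain ⟨κ, hκ, hκ'⟩ := ex_kappa (d := d)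
  refine ⟨Measure.map κ volume, Measure.isProbabilityMeasure_map hκ.aemeasurable, ?_⟩
  rintro ⟨T, ⟨h1, h2⟩, h3⟩
  have h4 : NullMeasurable (T ∘ κ) volume :=
    h3.comp_quasiMeasurePreserving ⟨hκ, Measure.AbsolutelyContinuous.rfl⟩
  have h4' : NullMeasurable (fun x => T (κ x) 0) volume := by
    intro s hs
    have h8 : MeasurableSet ((fun y : (Fin d → ℤ) → Fin k => y 0) ⁻¹' s) :=
      measurable_pi_apply (0 : Fin d → ℤ) hs
    have h9 := h4 h8
    rw [← Set.preimage_comp] at h9
    exact h9
  obtain ⟨c, hc, h5⟩ := h4'.aemeasurable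
  refine hP c hc ?_
  have h6 : ∀ᵐ x ∂(volume : Measure UnitAddCircle), ∀ g : Fin d → ℤ,
      T (κ (rot g x)) 0 = c (rot g x) :=
    ae_all_iff.2 fun g => (rot_mp g).quasiMeasurePreserving.ae (p := fun x => T (κ x) 0 = c x) h5
  filter_upwards [h6, hκ'] with x hx hf
  have h7 : ∀ g, T (κ (rot g x)) 0 = T (κ x) g := by
    intro g
    rw [h2 g (κ x) (κ (rot g x)) (hf g)]
    simp only [sh, zero_add]
  have := h1 (κ x) 0
  rw [sh_zero, Set.mem_compl_iff, not_not] at this
  have e : (fun g : {w // w ∈ W} => c (rot g.1 x)) = fun g : {w // w ∈ W} => T (κ x) g.1 :=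
    funext fun g => by rw [← hx, h7]
  rw [e]
  exact this

end Pool.Agent.H.MP_6540cb_lc
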