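import Mathlib

set_option autoImplicit false

namespace Pool.Agent.H.MP_6540cb_lc

/-- the shift `(g • x) h = x (h + g)` on configurations over `ℤ^d` -/
def sh {d : ℕ} {α : Type} (g : Fin d → ℤ) (x : (Fin d → ℤ) → α) : (Fin d → ℤ) → α :=
  fun h => x (h + g)

/-- the free part of `2^(ℤ^d)`, with the subspace topology and Borel structure -/
abbrev Free (d : ℕ) : Type := {x : (Fin d → ℤ) → Bool // ∀ g, g ≠ 0 → sh g x ≠ x}

/-- the subshift of finite type of configurations in which no pattern of `B` occurs on a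
translate of the window `W` -/
def SFT {d k : ℕ} (W : Finset (Fin d → ℤ)) (B : Set ({w // w ∈ W} → Fin k)) :
    Set ((Fin d → ℤ) → Fin k) :=
  {y | ∀ g, (fun w : {w // w ∈ W} => sh g y w.1) ∉ B}

/-- `T` is an equivariant map from the free part into `S` -/
def EqTo {d k : ℕ} (S : Set ((Fin d → ℤ) → Fin k)) (T : Free d → (Fin d → ℤ) → Fin k) : Prop :=
  (∀ x, T x ∈ S) ∧ ∀ (g : Fin d → ℤ) (x y : Free d), y.1 = sh g x.1 → T y = sh g (T x)

end Pool.Agent.H.MP_6540cb_lc
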